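import Pool.Agent.Y463.KN.Basic
import Pool.Agent.Y463.UT.Fin

/-!
# Knotoids with random twist regions, and random knotoids modulo `N`

Diagrams (starting library `Pool.Agent.H891R2.Jones.Diagram`): `Diagram P` (oriented diagrams with
marked points `P`, planar or not; `Diagram.loops`, the number of components of a state, counts circles and
intervals), `Diagram.fPoly` (the normalised bracket `(-A^{-3})^{w(D)} ⟨D⟩ ∈ ℤ[A, A⁻¹]`), `Outer m` (an
oriented diagram with an open box through which `m` strands run, each of them in one of the two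
directions: `O.up`), `Outer.close` (the open box is filled with `m` vertical strands without crossings).
`IsKnotoid D` (starting library `Pool.Agent.H832R3.TW.E`): the pieces of `D` form one oriented interval,
running from a marked point `tail` to a different marked point `head`, and (possibly) oriented closed
curves.  Starting library `Pool.Agent.W639.RB.Defs`: `Letter m` (the letters `σ_i^{±1}` of the braid group
on `m` strands), `diagram O w` (the diagram with the word `w : Fin n → Letter m` in the box of `O`),
`perm w` (the permutation of the strands of such a word).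

`Pool.Agent.Y463.SK.Defs`: `permW w` (the permutation of the strands of a list of letters), `dia O w` (the
diagram with the list of letters `w` in the box of `O`), `powW w n`.  `Pool.Agent.Y463.MP.Defs`:
`nonmult N f` (the number of the coefficients of `f` which are not divisible by `N`), `osize`, `dsize` (the
number of crossings and marked points of an outside, of a diagram).  `Pool.Agent.Y463.UT.Defs`: `Law`
(probability distributions with finite support on `ℤ`), `prob μ E` (the probability of `E` for independent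
integers with the distributions `μ_j`), `tw i x` (the word `σ_{i_1}^{x_1} ⋯ σ_{i_k}^{x_k}`), `turns i μ ε` (the
number of `j` such that `|i_j - i_{j+1}| = 1` and no value of `x_j`, `x_{j+1}` has probability larger than
`ε`).

The bounds are those of the library theorems `Pool.Agent.Y463.UT.final`, `final2`, `final3` and
`Pool.Agent.Y463.MP.final`, `short` (which do not need that the outside is the outside of a closed diagram),
together with the count `Pool.Agent.Y463.KN.permsE` of the words with a given permutation.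
-/

set_option autoImplicit false

namespace Pool.Agent.Results.MP_79b4ff_gt.KnotoidLittlewoodOfford

open Finset LaurentPolynomial Pool.Agent.H891R2.Jones Pool.Agent.W639.RB Pool.Agent.Y463.SK 
  Pool.Agent.Y463.UT Pool.Agent.Y463.MP Pool.Agent.Y463.KN Pool.Agent.H832R3.TW

/-- the transposition of a letter -/
def sw {m : ℕ} (i : Fin (m - 1)) : Equiv.Perm (Fin m) := 
  Equiv.swap (⟨i, by omega⟩ : Fin m) ⟨i + 1, by omega⟩

theorem sw_mul {m : ℕ} (i : Fin (m - 1)) : sw i * sw i = 1 := Equiv.swap_mul_self _ _

theorem permW_append {m : ℕ} (a b : List (Letter m)) : permW (a ++ b) = permW a * permW b := by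
  simp [permW]

theorem permW_rep {m : ℕ} (x : Letter m) (n : ℕ) : 
    permW (List.replicate n [x]).flatten = sw x.2 ^ n := by
  induction n with
  | zero => simp [permW]
  | succ n ih =>
    rw [List.replicate_succ, List.flatten_cons, permW_append, ih, pow_succ']
    congr 1

theorem sw_pow_even {m : ℕ} (i : Fin (m - 1)) (n : ℕ) (h : Even n) : sw i ^ n = 1 := by
  obtain ⟨k, rfl⟩ := h
  rw [← two_mul, pow_mul, pow_two, sw_mul, one_pow]

theorem permW_pow {m : ℕ} (i : Fin (m - 1)) (n : ℤ) (h : Even n) : 
    permW (powW [((true, i) : Letter m)] n) = 1 := by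
  rcases n with n | n
  · rw [powW, permW_rep]
    exact sw_pow_even _ _ (by simpa using h)
  · rw [powW]
    have h1 : invW [((true, i) : Letter m)] = [(false, i)] := rfl
    rw [h1, permW_rep]
    apply sw_pow_even
    rw [Int.negSucc_eq, even_neg] at h
    exact_mod_cast h

theorem permW_flatten {m : ℕ} (L : List (List (Letter m))) (h : ∀ l ∈ L, permW l = 1) : 
    permW L.flatten = 1 := by
  induction L with
  | nil => simp [permW]
  | cons a L ih =>
    rw [List.flatten_cons, permW_append, h a (by simp), ih (fun l hl => h l (by simp [hl])), one_mul]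

theorem permW_tw {m k : ℕ} (i : Fin k → Fin (m - 1)) (x : Fin k → ℤ) (h : ∀ j, Even (x j)) : 
    permW (tw i x) = 1 := by
  unfold tw
  apply permW_flatten
  intro l hl
  rw [List.mem_ofFn'] at hl
  obtain ⟨j, rfl⟩ := hl
  exact permW_pow _ _ (h j)

open Classical in
/-- **Knotoids with random twist regions or random braids.**  Let `m ≥ 3`; `O` denotes outsides of a box
with `m` strands such that `O.close` is a diagram of a knotoid.

* If a word preserves the directions of the strands (for instance, if all of them have the same direction,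
  or if the word is pure), the diagram with this word in the box of `O` is again a knotoid diagram; the
  words `σ_{i_1}^{x_1} ⋯ σ_{i_k}^{x_k}` with even exponents are pure.
* There is a constant `C` such that for all `N ≥ 2`, all `O`, all places `i_1, …, i_k`, all independent random
  exponents `x_1, …, x_k ∈ ℤ` (finite supports, arbitrary distributions, for instance on the even integers),
  all `ε > 0` and all `u` such that for at least `u (m! + 1) (m! + 2)` values of `j` the places `i_j` and
  `i_{j+1}` are neighbouring and no value of `x_j` or `x_{j+1}` has probability larger than `ε`: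
  - for every Laurent polynomial `g` (for instance `g = 1`) the diagram with `σ_{i_1}^{x_1} ⋯ σ_{i_k}^{x_k}` in
    the box has a normalised bracket congruent to `g` modulo `N` with probability at most `C (8ε)^{u/2}`;
  - for every `κ` there is `C'` (independent of `O`, `k`, `i`, `ε`, `u` and of the distributions) such that
    if all the diagrams have at most `κ (u + 1) / ε` crossings and marked points in the outside and
    crossings in the box, then with probability at least `1 - C (C' ε)^{u/4}` more than `u/4` coefficients of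
    the normalised bracket are not divisible by `N`, and with the same probability at least it is not
    congruent modulo `N` to the normalised bracket of any diagram `D` with `16 dsize D + 4 ≤ u`.
* There are `r < 1` and `l0` such that for every permutation `τ` of the strands and every `n ≥ l0` for which
  `τ` has the sign `(-1)^n`, the following holds for all `O` whose directions are preserved by `τ`, where the
  proportions are those among the words `w` of length `n` in the letters `σ_i^{±1}` with permutation `τ` (all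
  of them give knotoid diagrams):
  - for a constant `C`, all `N ≥ 2`, all `g`: a proportion of at most `C r^n` has a normalised bracket
    congruent to `g` modulo `N`;
  - for all `N ≥ 2`, `κ` there are `δ > 0` and `C` such that for all `O` with at most `κ (n + 1)` crossings
    and marked points a proportion of at most `C r^n` has at most `δ n` coefficients not divisible by `N`;
  - for all `N ≥ 2`, `κ` there are `ε > 0` and `C` such that for these `O` a proportion of at most `C r^n` has
    the normalised bracket modulo `N` of a diagram with at most `ε n` crossings and marked points. -/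
theorem result (m : ℕ) (hm : 3 ≤ m) : 
    (∀ (O : Outer m), IsKnotoid O.close → ∀ w : List (Letter m), (∀ j, O.up (permW w j) = O.up j) → 
      IsKnotoid (dia O w)) ∧ 
    (∀ (k : ℕ) (i : Fin k → Fin (m - 1)) (x : Fin k → ℤ), (∀ j, Even (x j)) → permW (tw i x) = 1) ∧ 
    (∃ C : ℝ, ∀ N : ℕ, 2 ≤ N → 
      (∀ (O : Outer m), IsKnotoid O.close → ∀ (g : ℤ[T;T⁻¹]) (k : ℕ) (i : Fin k → Fin (m - 1)) 
        (μ : Fin k → Law) (ε : ℝ), 0 < ε → 
        ∀ u : ℕ, u * ((m.factorial + 1) * (m.factorial + 2)) ≤ turns i μ ε → 
          prob μ (fun x => (N : ℤ[T;T⁻¹]) ∣ (dia O (tw i x)).fPoly - g) ≤ C * (8 * ε) ^ ((u : ℝ) / 2)) ∧ 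
      (∀ κ : ℝ, ∃ C' : ℝ, ∀ (O : Outer m), IsKnotoid O.close → ∀ (k : ℕ) (i : Fin k → Fin (m - 1)) 
        (μ : Fin k → Law) (ε : ℝ), 
        0 < ε → ∀ u : ℕ, u * ((m.factorial + 1) * (m.factorial + 2)) ≤ turns i μ ε → 
          (∀ x ∈ Fintype.piFinset (fun j => (μ j).A), 
            (osize O : ℝ) + ∑ j, |(x j : ℝ)| ≤ κ * (u + 1) / ε) → 
            prob μ (fun x => 4 * nonmult N (dia O (tw i x)).fPoly ≤ u) ≤ C * (C' * ε) ^ ((u : ℝ) / 4) ∧ 
            prob μ (fun x => ∃ (P : Type) (_ : Finite P) (D : Diagram P), 16 * dsize D + 4 ≤ u ∧ 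
              (N : ℤ[T;T⁻¹]) ∣ (dia O (tw i x)).fPoly - D.fPoly) ≤ C * (C' * ε) ^ ((u : ℝ) / 4))) ∧ 
    (∃ (r : ℝ) (l0 : ℕ), 0 < r ∧ r < 1 ∧ 
      (∀ (O : Outer m), IsKnotoid O.close → ∀ τ : Equiv.Perm (Fin m), (∀ j, O.up (τ j) = O.up j) → 
        ∀ (n : ℕ) (w : Fin n → Letter m), perm w = τ → IsKnotoid (diagram O w)) ∧ 
      (∃ C : ℝ, ∀ N : ℕ, 2 ≤ N → ∀ (O : Outer m), IsKnotoid O.close → ∀ τ : Equiv.Perm (Fin m), 
        (∀ j, O.up (τ j) = O.up j) → ∀ (g : ℤ[T;T⁻¹]) (n : ℕ), 
        l0 ≤ n → Equiv.Perm.sign τ = (-1) ^ n → 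
        ((univ.filter (fun w : Fin n → Letter m => 
          perm w = τ ∧ (N : ℤ[T;T⁻¹]) ∣ (diagram O w).fPoly - g)).card : ℝ) ≤ 
            C * r ^ n * (univ.filter (fun w : Fin n → Letter m => perm w = τ)).card) ∧ 
      (∀ N : ℕ, 2 ≤ N → ∀ κ : ℝ, ∃ δ : ℝ, 0 < δ ∧ ∃ C : ℝ, ∀ (O : Outer m), IsKnotoid O.close → 
        ∀ τ : Equiv.Perm (Fin m), (∀ j, O.up (τ j) = O.up j) → ∀ (n : ℕ), 
        l0 ≤ n → Equiv.Perm.sign τ = (-1) ^ n → (osize O : ℝ) ≤ κ * (n + 1) → 
        ((univ.filter (fun w : Fin n → Letter m => 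
          perm w = τ ∧ (nonmult N (diagram O w).fPoly : ℝ) ≤ δ * n)).card : ℝ) ≤ 
            C * r ^ n * (univ.filter (fun w : Fin n → Letter m => perm w = τ)).card) ∧ 
      (∀ N : ℕ, 2 ≤ N → ∀ κ : ℝ, ∃ ε : ℝ, 0 < ε ∧ ∃ C : ℝ, ∀ (O : Outer m), IsKnotoid O.close → 
        ∀ τ : Equiv.Perm (Fin m), (∀ j, O.up (τ j) = O.up j) → ∀ (n : ℕ), 
        l0 ≤ n → Equiv.Perm.sign τ = (-1) ^ n → (osize O : ℝ) ≤ κ * (n + 1) → 
        ((univ.filter (fun w : Fin n → Letter m => 
          perm w = τ ∧ ∃ (P : Type) (_ : Finite P) (D : Diagram P), (dsize D : ℝ) ≤ ε * n ∧ 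
            (N : ℤ[T;T⁻¹]) ∣ (diagram O w).fPoly - D.fPoly)).card : ℝ) ≤ 
              C * r ^ n * (univ.filter (fun w : Fin n → Letter m => perm w = τ)).card)) := by
  refine ⟨fun O hO w hw => knotoid_dia O hO w hw, fun k i x hx => permW_tw i x hx, 
    ⟨Real.exp 1 * CU m, fun N hN => ⟨?_, ?_⟩⟩, ?_⟩
  · intro O _ g k i μ ε hε u hu
    have h1 := Pool.Agent.Y463.UT.final hm N hN O g k i μ ε hε u hu
    have h2 : 1 ≤ Real.exp 1 := Real.one_le_exp (by norm_num)
    have h3 : 0 ≤ CU m * (8 * ε) ^ ((u : ℝ) / 2) := (prob_nonneg μ _).trans h1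
    rw [mul_assoc]
    exact h1.trans (le_mul_of_one_le_left h3 h2)
  · intro κ
    obtain ⟨C', _, h⟩ := final2 hm N hN κ
    refine ⟨C', fun O _ k i μ ε hε u hu hsz => ?_⟩
    have h1 := h O k i μ ε hε u hu hsz
    exact ⟨h1, (final3 N O i μ u).trans h1⟩
  have hD0 : (0:ℝ) < ((2 * (m - 1) : ℕ) : ℝ) := by
    have : 0 < 2 * (m - 1) := by omega
    exact_mod_cast this
  have hp : ∀ x : Letter m, (0:ℝ) < (fun _ => 1 / ((2 * (m - 1) : ℕ) : ℝ)) x := fun _ => by positivity
  have hs : ∑ x : Letter m, (fun _ => 1 / ((2 * (m - 1) : ℕ) : ℝ)) x = 1 := by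
    rw [Finset.sum_const, Finset.card_univ, Pool.Agent.W705.JR.card_letter, nsmul_eq_mul]
    field_simp
  obtain ⟨r, hr0, hr1, ⟨C1, h1⟩, h2⟩ := Pool.Agent.Y463.MP.final hm _ hp hs
  obtain ⟨l0, c, hc, hk⟩ := permsE (m := m) (by omega) r hr0
  have hpow : ∀ n : ℕ, 0 ≤ r ^ n := fun n => by positivity
  refine ⟨r, l0, hr0, hr1, ?_, ⟨c * max C1 0, ?_⟩, ?_, ?_⟩
  · intro O hO τ hτ n w hw
    exact knotoid_diagram O hO w (up_perm O w (by rw [hw]; exact hτ))
  · intro N hN O _ τ _ g n hn hpar
    exact hk τ n (max C1 0) _ hn hpar (le_max_right _ _) ((h1 N hN O g n).trans 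
      (mul_le_mul_of_nonneg_right (le_max_left _ _) (hpow n)))
  · intro N hN κ
    obtain ⟨δ, hδ, C, hC⟩ := h2 N hN κ
    refine ⟨δ, hδ, c * max C 0, ?_⟩
    intro O _ τ _ n hn hpar hO
    exact hk τ n (max C 0) _ hn hpar (le_max_right _ _) ((hC O n hO).trans 
      (mul_le_mul_of_nonneg_right (le_max_left _ _) (hpow n)))
  · intro N hN κ
    obtain ⟨δ, hδ, C0, hC0⟩ := h2 N hN κ
    obtain ⟨ε, hε, C, hC⟩ := short _ hp hs r hr0 hr1 N κ δ hδ C0 hC0
    refine ⟨ε, hε, c * max C 0, ?_⟩
    intro O _ τ _ n hn hpar hO
    exact hk τ n (max C 0) _ hn hpar (le_max_right _ _) ((hC O n hO).trans 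
      (mul_le_mul_of_nonneg_right (le_max_left _ _) (hpow n)))

end Pool.Agent.Results.MP_79b4ff_gt.KnotoidLittlewoodOfford
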