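import Pool.Agent.Y463.KN.Basic

/-!
# Random knotoids with a given permutation of the strands: the normalised bracket modulo `N`

Diagrams (starting library `Pool.Agent.H891R2.Jones.Diagram`): `Diagram P` (oriented diagrams with
marked points, planar or not), `Diagram.fPoly` (the normalised bracket `(-A^{-3})^{w(D)} ⟨D⟩ ∈ ℤ[A, A⁻¹]`,
`A = T 1`), `Outer m` (an oriented diagram with an open box through which `m` strands run, each of them
in one of the two directions: `O.up`), `Outer.close` (the open box is filled with `m` vertical strands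
without crossings).  `IsKnotoid D` (starting library `Pool.Agent.H832R3.TW.E`): the pieces of `D` form one
oriented interval, running from a marked point `tail` to a different marked point `head`, and (possibly)
oriented closed curves.  Starting library `Pool.Agent.W639.RB`: `Letter m` (the letters `σ_i^{±1}`
of the braid group on `m` strands), `perm w` (the permutation of the strands of the word `w`), `diagram O w`
(the diagram obtained by drawing `w` in the box of `O` and filling the rest of the box with vertical strands).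
`Pool.Agent.Y463.MP.Defs`: `Pr p n E` (the probability that a word of `n` independent random letters with the
distribution `p` has the property `E`), `nonmult N f` (the number of the coefficients of `f` not divisible by
`N`), `osize O`, `dsize D` (the number of crossings and marked points of an outside, of a diagram).
-/

set_option autoImplicit false

namespace Pool.Agent.Results.MP_79b4ff_gt.RandomKnotoidsModN

open Finset LaurentPolynomial Pool.Agent.H891R2.Jones Pool.Agent.W639.RB Pool.Agent.Y463.SK 
  Pool.Agent.Y463.MP Pool.Agent.Y463.KN Pool.Agent.H832R3.TW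

open Classical in
/-- every permutation of the right sign has a probability which is bounded below -/
theorem many {m : ℕ} (hm : 2 ≤ m) (p : Letter m → ℝ) (hp : ∀ x, 0 < p x) (hs : ∑ x, p x = 1) : 
    ∃ (l0 : ℕ) (c : ℝ), 0 < c ∧ ∀ (τ : Equiv.Perm (Fin m)) (n : ℕ), l0 ≤ n → 
      Equiv.Perm.sign τ = (-1) ^ n → c ≤ Pr p n (fun w => perm w = τ) := by
  obtain ⟨l0, hl0⟩ := exists_len hm
  obtain ⟨q, hq, hqp⟩ : ∃ q : ℝ, 0 < q ∧ ∀ x, q ≤ p x := by
    have hne : Nonempty (Letter m) := ⟨(true, ⟨0, by omega⟩)⟩
    obtain ⟨x, -, hx⟩ := Finset.exists_min_image (univ : Finset (Letter m)) p 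
      (Finset.univ_nonempty)
    exact ⟨p x, hp x, fun y => hx y (Finset.mem_univ y)⟩
  refine ⟨l0, q ^ l0, by positivity, fun τ n hn hpar => ?_⟩
  obtain ⟨k, rfl⟩ : ∃ k, n = k + l0 := ⟨n - l0, by omega⟩
  have h1 : ∀ w : Fin k → Letter m, ∃ s : Fin l0 → Letter m, perm s = (perm w)⁻¹ * τ := by
    intro w
    apply hl0
    rw [map_mul, map_inv, sign_perm, hpar, Int.units_inv_eq_self, ← pow_add]
    have h3 : k + (k + l0) = l0 + 2 * k := by ring
    rw [h3, pow_add, pow_mul (-1 : ℤˣ) 2 k]
    simp
  choose s hs' using h1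
  have hinj : Function.Injective (fun w : Fin k → Letter m => Fin.append w (s w)) := by
    intro w w' h
    funext i
    have := congrFun h (Fin.castAdd l0 i)
    simpa [Fin.append_left] using this
  have hone : ∑ w : Fin k → Letter m, ∏ j, p (w j) = 1 := by
    have h2 := Finset.prod_univ_sum (fun _ : Fin k => (Finset.univ : Finset (Letter m))) 
      (fun (_ : Fin k) (b : Letter m) => p b)
    rw [Fintype.piFinset_univ] at h2
    rw [← h2, hs, Finset.prod_const_one]
  have h2 : ∑ w ∈ (univ : Finset (Fin k → Letter m)).image (fun w => Fin.append w (s w)), 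
      (if perm w = τ then ∏ j : Fin (k + l0), p (w j) else 0) ≤ Pr p (k + l0) (fun w => perm w = τ) := by
    have e : Pr p (k + l0) (fun w => perm w = τ) = 
        ∑ w : Fin (k + l0) → Letter m, (if perm w = τ then ∏ j : Fin (k + l0), p (w j) else 0) := by
      unfold Pr
      refine Finset.sum_congr rfl fun w _ => ?_
      by_cases h : perm w = τ
      · rw [if_pos h, if_pos h]
      · rw [if_neg h, if_neg h]
    rw [e]
    apply Finset.sum_le_sum_of_subset_of_nonneg
    · exact Finset.subset_univ _
    · intro w _ _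
      split_ifs
      · exact Finset.prod_nonneg fun j _ => (hp _).le
      · exact le_rfl
  refine le_trans ?_ h2
  rw [Finset.sum_image fun _ _ _ _ h => hinj h]
  calc q ^ l0 = (∑ w : Fin k → Letter m, ∏ j, p (w j)) * q ^ l0 := by rw [hone, one_mul]
    _ = ∑ w : Fin k → Letter m, (∏ j, p (w j)) * q ^ l0 := Finset.sum_mul _ _ _
    _ ≤ _ := by
      refine Finset.sum_le_sum fun w _ => ?_
      have h4 : perm (Fin.append w (s w)) = τ := by rw [perm_append, hs', mul_inv_cancel_left]
      rw [if_pos h4, Fin.prod_univ_add]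
      simp only [Fin.append_left, Fin.append_right]
      refine mul_le_mul_of_nonneg_left ?_ (Finset.prod_nonneg fun j _ => (hp _).le)
      calc q ^ l0 = ∏ _j : Fin l0, q := by simp
        _ ≤ _ := Finset.prod_le_prod (fun _ _ => hq.le) fun j _ => hqp _

/-- from probabilities to conditional probabilities -/
theorem cond {m : ℕ} {p : Letter m → ℝ} (hp : ∀ x, 0 < p x) {c : ℝ} (hc : 0 < c) {n : ℕ} 
    {τ : Equiv.Perm (Fin m)} (h : c ≤ Pr p n (fun w => perm w = τ)) 
    {E : (Fin n → Letter m) → Prop} {C x : ℝ} (hx : 0 ≤ x) (hE : Pr p n E ≤ C * x) : 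
    Pr p n (fun w => perm w = τ ∧ E w) ≤ (max C 0 / c) * x * Pr p n (fun w => perm w = τ) := by
  have h1 : Pr p n (fun w => perm w = τ ∧ E w) ≤ Pr p n E := 
    Pr_mono p (fun x => (hp x).le) fun w hw => hw.2
  have h2 : 0 ≤ max C 0 / c * x := mul_nonneg (div_nonneg (le_max_right _ _) hc.le) hx
  calc _ ≤ C * x := h1.trans hE
    _ ≤ max C 0 * x := mul_le_mul_of_nonneg_right (le_max_left _ _) hx
    _ = max C 0 / c * x * c := by field_simp
    _ ≤ _ := mul_le_mul_of_nonneg_left h h2

/-- **Random knotoids modulo `N`.**  Let `m ≥ 3`, let `O` be a diagram with an open box through which `m` strands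
run such that `O.close` is a knotoid diagram.  Braid words whose permutation `τ` preserves the directions of
the strands of the box give knotoid diagrams.  Let `p` be any strictly positive distribution on the letters.
There are `r < 1`, `c > 0` and `l0` such that for all such `O`, `τ` and all `n ≥ l0` with `sign τ = (-1)^n` (the
necessary condition for `τ` to be the permutation of a word of length `n`) the random word of length `n` has the
permutation `τ` with probability at least `c`, and under the condition that the permutation is `τ`: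

* for all `N ≥ 2` and all Laurent polynomials `g` (for instance `g = 1`, the normalised bracket of the trivial
  knotoid) the normalised bracket of the random knotoid is congruent to `g` modulo `N` with conditional
  probability at most `C r^n`, `C` depending only on `m` and `p`;
* if `O` has at most `κ (n + 1)` crossings and marked points, then with conditional probability at least
  `1 - C r^n` more than `δ n` coefficients of the normalised bracket are not divisible by `N`, and the
  normalised bracket is not congruent modulo `N` to the one of any diagram (of a knotoid, a link, ...) with at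
  most `ε n` crossings and marked points (`δ`, `ε`, `C` depending only on `m`, `p`, `N`, `κ`). -/
theorem result (m : ℕ) (hm : 3 ≤ m) : 
    (∀ (O : Outer m), IsKnotoid O.close → ∀ (n : ℕ) (w : Fin n → Letter m), 
      (∀ j, O.up (perm w j) = O.up j) → IsKnotoid (diagram O w)) ∧
    (∀ p : Letter m → ℝ, (∀ x, 0 < p x) → ∑ x, p x = 1 → ∃ (r c : ℝ) (l0 : ℕ), 0 < r ∧ r < 1 ∧ 0 < c ∧ 
      (∀ (τ : Equiv.Perm (Fin m)) (n : ℕ), l0 ≤ n → Equiv.Perm.sign τ = (-1) ^ n → 
        c ≤ Pr p n (fun w => perm w = τ)) ∧
      (∃ C : ℝ, ∀ N : ℕ, 2 ≤ N → ∀ (O : Outer m), IsKnotoid O.close → ∀ (τ : Equiv.Perm (Fin m)), 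
        (∀ j, O.up (τ j) = O.up j) → ∀ n : ℕ, l0 ≤ n → Equiv.Perm.sign τ = (-1) ^ n → 
          ∀ g : ℤ[T;T⁻¹], 
          Pr p n (fun w => perm w = τ ∧ (N : ℤ[T;T⁻¹]) ∣ (diagram O w).fPoly - g) ≤ 
            C * r ^ n * Pr p n (fun w => perm w = τ)) ∧ 
      (∀ N : ℕ, 2 ≤ N → ∀ κ : ℝ, ∃ δ ε C : ℝ, 0 < δ ∧ 0 < ε ∧ ∀ (O : Outer m), IsKnotoid O.close → 
        ∀ (τ : Equiv.Perm (Fin m)), (∀ j, O.up (τ j) = O.up j) → ∀ n : ℕ, l0 ≤ n → 
          Equiv.Perm.sign τ = (-1) ^ n → (osize O : ℝ) ≤ κ * (n + 1) → 
            Pr p n (fun w => perm w = τ ∧ (nonmult N (diagram O w).fPoly : ℝ) ≤ δ * n) ≤ 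
              C * r ^ n * Pr p n (fun w => perm w = τ) ∧ 
            Pr p n (fun w => perm w = τ ∧ ∃ (P : Type) (_ : Finite P) (D : Diagram P), 
              (dsize D : ℝ) ≤ ε * n ∧ (N : ℤ[T;T⁻¹]) ∣ (diagram O w).fPoly - D.fPoly) ≤ 
                C * r ^ n * Pr p n (fun w => perm w = τ))) := by
  refine ⟨fun O hO n w h => knotoid_diagram O hO w (up_perm O w h), fun p hp hs => ?_⟩
  obtain ⟨r, hr0, hr1, ⟨C1, h1⟩, h2⟩ := final hm p hp hs
  obtain ⟨l0, c, hc, hmany⟩ := many (by omega : 2 ≤ m) p hp hs
  have hpow : ∀ n : ℕ, 0 ≤ r ^ n := fun n => by positivity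
  refine ⟨r, c, l0, hr0, hr1, hc, hmany, ⟨max C1 0 / c, ?_⟩, ?_⟩
  · intro N hN O _ τ _ n hn hpar g
    exact cond hp hc (hmany τ n hn hpar) (hpow n) (h1 N hN O g n)
  · intro N hN κ
    obtain ⟨δ, hδ, C2, h2'⟩ := h2 N hN κ
    obtain ⟨ε, hε, C3, h3⟩ := short p hp hs r hr0 hr1 N κ δ hδ C2 h2'
    refine ⟨δ, ε, max (max C2 0 / c) (max C3 0 / c), hδ, hε, ?_⟩
    intro O _ τ _ n hn hpar hO
    have hP : 0 ≤ Pr p n (fun w => perm w = τ) := hc.le.trans (hmany τ n hn hpar)
    constructor
    · refine (cond hp hc (hmany τ n hn hpar) (hpow n) (h2' O n hO)).trans ?_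
      exact mul_le_mul_of_nonneg_right (mul_le_mul_of_nonneg_right (le_max_left _ _) (hpow n)) hP
    · refine (cond hp hc (hmany τ n hn hpar) (hpow n) (h3 O n hO)).trans ?_
      exact mul_le_mul_of_nonneg_right (mul_le_mul_of_nonneg_right (le_max_right _ _) (hpow n)) hP

end Pool.Agent.Results.MP_79b4ff_gt.RandomKnotoidsModN
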