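import Pool.Agent.X130.KD.D

/-!
# Knotoid diagrams with a state whose exceptional smoothings are sparse

`Pool.Agent.H832R2.JR.Defs` and `Pool.Agent.H867R3.Kn.Defs` (starting library) contain the
definitions:

* `GaussWord N`: the Gauss word `G` of a knotoid diagram with `N` crossings; `w c = true` if the
  crossing `c` is positive; `ε`: the flat signs; `Spherical G ε`: the diagram lies on the sphere;
* a state is a function `s : Fin N → Bool` (`true`: oriented smoothing, `false`: unoriented
  smoothing; the oriented smoothing is the smoothing of type `A` exactly at the positive crossings);
  `KJoined G s`: two half edges are joined in the state; `comps G s`: the number of its components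
  (the interval and the circles); `Adequate G s`: no component meets itself at a crossing;
* `kPoly G w`: the normalised bracket polynomial `f`; `writhe w`: the writhe;
* `UntiedByKinks G`: the diagram is reduced to the trivial one by removing kinks one after the other;
* `Ori G (st s) o`: `o` is an orientation of the components of the state (the interval being closed by
  joining its ends); `key G s o c`: the unordered pair of the components which meet at the crossing
  `c`, together with the relation of their orientations at `c`. For a circle and another circle
  the second entry is the same for all crossings between them; for a circle and the interval it tells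
  on which side of the interval the crossing is.

`Pool.Agent.X130.KD.D`: `Linked`, `pieces G s X` (the number of components of the subgraph with the
edges `X` of the state graph: its vertices are the components of the state, its edges the crossings),
`asm w s` (the crossings with the smoothing of type `A`), `Dominated G s M` (the state is adequate,
and every subgraph of the state graph with `j > 0` edges in `M`, none of them a bridge of it, has
rank at least `2 j + 2`).
-/

set_option autoImplicit false

namespace Pool.Agent.Results.MP_79b4ff_gt.SparseExceptions

open Finset LaurentPolynomial Pool.Agent.H832R2.JR Pool.Agent.H867R3.Kn Pool.Agent.X130.KD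

/-- Let a knotoid diagram in the sphere with `N` crossings and writhe `w` have an adequate state `s`
with `v` components such that every subgraph of the state graph which contains `j > 0` of the
`A`-smoothed crossings, none of them as a bridge, has rank at least `2 j + 2` (or the same with the
`B`-smoothed crossings).

* If `f = 1` then all crossings can be removed one after the other by Reidemeister moves of type I.
* Let `N > 0`, let `m` be the number of the `A`-smoothings of `s` and `e'` the number of classes of
  parallel crossings. Then the lowest exponent of `f` is `6 m - N - 2 v + 2 - 3 w`, with coefficient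
  `± 1`, and the coefficient at the exponent larger by `4` has absolute value `|e' + 1 - v|`.
* In the other case the highest exponent of `f` is `N + 2 v - 2 - 6 m' - 3 w`, `m'` the number of the
  `B`-smoothings, with coefficient `± 1`, and the coefficient at the exponent smaller by `4` has
  absolute value `|e' + 1 - v|`. -/
theorem result (N : ℕ) (G : GaussWord N) (ε w s : Fin N → Bool) (hs : Spherical G ε) :
    (Dominated G s (asm w s) ∨ Dominated G s (asm w s)ᶜ → kPoly G w = 1 → UntiedByKinks G) ∧
    (0 < N → ∀ o : Half N → Bool, Ori G (st s) o →
      (Dominated G s (asm w s) →
        (∀ j, (kPoly G w).coeff j ≠ 0 →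
          6 * ((asm w s).card : ℤ) - N - 2 * comps G s + 2 - 3 * writhe w ≤ j) ∧
        |(kPoly G w).coeff (6 * ((asm w s).card : ℤ) - N - 2 * comps G s + 2 - 3 * writhe w)| = 1 ∧
        |(kPoly G w).coeff (6 * ((asm w s).card : ℤ) - N - 2 * comps G s + 2 - 3 * writhe w + 4)| =
          |((Set.range (key G s o)).ncard : ℤ) + 1 - comps G s|) ∧
      (Dominated G s (asm w s)ᶜ →
        (∀ j, (kPoly G w).coeff j ≠ 0 →
          j ≤ N + 2 * comps G s - 2 - 6 * ((asm w s)ᶜ.card : ℤ) - 3 * writhe w) ∧
        |(kPoly G w).coeff (N + 2 * comps G s - 2 - 6 * ((asm w s)ᶜ.card : ℤ) - 3 * writhe w)| = 1 ∧
        |(kPoly G w).coeff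
            (N + 2 * comps G s - 2 - 6 * ((asm w s)ᶜ.card : ℤ) - 3 * writhe w - 4)| =
          |((Set.range (key G s o)).ncard : ℤ) + 1 - comps G s|)) := by
  have hasm : asm (fun c => !w c) s = (asm w s)ᶜ := by
    ext c
    simp only [asm, mem_filter, mem_univ, true_and, mem_compl]
    cases s c <;> cases w c <;> simp
  refine ⟨?_, fun hN o ho => ⟨fun h => low hN G ε w s hs h o ho, fun h => ?_⟩⟩
  · rintro (h | h) h1
    · exact detect G ε w s hs h h1
    · exact detect G ε (fun c => !w c) s hs (by rw [hasm]; exact h) (t_M1 N G w h1)
  · obtain ⟨l1, l2, l3⟩ := low hN G ε (fun c => !w c) s hs (by rw [hasm]; exact h) o ho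
    rw [hasm, M1_writhe, M1_poly] at l1 l2 l3
    rw [invert_apply] at l2 l3
    refine ⟨fun j hj => ?_, ?_, ?_⟩
    · have h2 := l1 (-j) (by rw [invert_apply, neg_neg]; exact hj)
      linarith
    · rw [← l2]
      congr 2
      ring
    · rw [← l3]
      congr 2
      ring

end Pool.Agent.Results.MP_79b4ff_gt.SparseExceptions
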