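import Pool.Agent.Y463.KN.Basic

/-!
# Knotoids and random elements of arbitrary finitely generated groups of braids: a zero-one law

Diagrams (starting library `Pool.Agent.H891R2.Jones.Diagram`): `Diagram P` (oriented diagrams with
marked points, planar or not), `Diagram.fPoly` (the normalised bracket `(-A^{-3})^{w(D)} ⟨D⟩ ∈ ℤ[A, A⁻¹]`,
`A = T 1`), `Outer m` (an oriented diagram with an open box through which `m` strands run, each of them
in one of the two directions: `O.up`), `Outer.close` (the open box is filled with `m` vertical strands
without crossings).  `IsKnotoid D` (starting library `Pool.Agent.H832R3.TW.E`): the pieces of `D` form one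
oriented interval, running from a marked point `tail` to a different marked point `head`, and (possibly)
oriented closed curves.  Starting library `Pool.Agent.W639.RB.Defs`: `Letter m` (the letters `σ_i^{±1}`
of the braid group on `m` strands), `draw` (draw a word in the box).  `Pool.Agent.Y463.SK.Defs` and
`Pool.Agent.Y463.RW.Defs`: `permW w` (the permutation of the strands of a word), `invW w` (the inverse
word), `dia O w` (the diagram obtained by drawing `w` in the box of `O` and filling the rest of the box
with vertical strands), `prodW w u` (the product `w_{i_1}^{±1} ⋯ w_{i_n}^{±1}` given by the sequence `u`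
of `n` pairs `(i, ±)`).
-/

set_option autoImplicit false

namespace Pool.Agent.Results.MP_79b4ff_gt.SubgroupZeroOneLaw

open Finset LaurentPolynomial Pool.Agent.H891R2.Jones Pool.Agent.W639.RB Pool.Agent.Y463.SK 
  Pool.Agent.Y463.RW Pool.Agent.Y463.KN Pool.Agent.H832R3.TW

open Classical in
/-- **Zero-one law for knotoids.**  For all `m, s ≥ 1` there is a constant `C`, depending only on `m` and
`s`, with the following property.  Let `O` be a diagram with an open box through which `m` strands run
such that `O.close` is a knotoid diagram.  Let `w_1, …, w_s` and `v` be arbitrary braid words on `m`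
strands and let `τ` be a permutation of the strands such that `τ` times the permutation of `v` preserves
the directions of the strands.  Consider the products `u = w_{i_1}^{±1} ⋯ w_{i_n}^{±1}` with permutation
`τ`, and the diagrams obtained by drawing `u v` in the box.

* They are knotoid diagrams.
* For every Laurent polynomial `F` (for instance `1`, the normalised bracket of the trivial knotoid):
  either for all products `u` with permutation `τ`, of any length, the diagram has the normalised bracket
  `F`, or for every `n ≥ 1` at most `C n^{-c} (2 s)^n` of the `(2 s)^n` products of length `n` have the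
  permutation `τ` and give a knotoid diagram with the normalised bracket `F`,
  where `c = 1 / (3 · 2^(m! 2^m + 2))`.
* Hence if two products `u`, `u'` with permutation `τ` give diagrams with different normalised brackets,
  for every `F` the proportion of the products of length `n` which have permutation `τ` and normalised
  bracket `F` is at most `C n^{-c}`. -/
theorem result (m s : ℕ) (hm : 0 < m) (hs : 0 < s) : ∃ C : ℝ, 0 < C ∧ 
    ∀ (O : Outer m), IsKnotoid O.close → ∀ (w : Fin s → List (Letter m)) (v : List (Letter m)) 
      (τ : Equiv.Perm (Fin m)), (∀ j, O.up ((τ * permW v) j) = O.up j) → 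
      (∀ (n : ℕ) (u : Fin n → Fin s × Bool), permW (prodW w u) = τ → 
        IsKnotoid (dia O (prodW w u ++ v))) ∧
      (∀ F : ℤ[T;T⁻¹], (∀ (n : ℕ) (u : Fin n → Fin s × Bool), permW (prodW w u) = τ → 
          (dia O (prodW w u ++ v)).fPoly = F) ∨ 
        ∀ n : ℕ, 0 < n → ((univ.filter (fun u : Fin n → Fin s × Bool => 
          permW (prodW w u) = τ ∧ (dia O (prodW w u ++ v)).fPoly = F)).card : ℝ) ≤ 
            C * (n : ℝ) ^ (-(1 / (3 * 2 ^ (m.factorial * 2 ^ m + 2))) : ℝ) * (2 * s : ℝ) ^ n) ∧
      ((∃ (k l : ℕ) (u : Fin k → Fin s × Bool) (u' : Fin l → Fin s × Bool), 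
          permW (prodW w u) = τ ∧ permW (prodW w u') = τ ∧ 
          (dia O (prodW w u ++ v)).fPoly ≠ (dia O (prodW w u' ++ v)).fPoly) → 
        ∀ (F : ℤ[T;T⁻¹]) (n : ℕ), 0 < n → ((univ.filter (fun u : Fin n → Fin s × Bool => 
          permW (prodW w u) = τ ∧ (dia O (prodW w u ++ v)).fPoly = F)).card : ℝ) ≤ 
            C * (n : ℝ) ^ (-(1 / (3 * 2 ^ (m.factorial * 2 ^ m + 2))) : ℝ) * (2 * s : ℝ) ^ n) := by
  refine ⟨Cst (2 * s : ℝ) (dimB m + 1), lt_of_lt_of_le one_pos (Cst_ge _ _), 
    fun O hO w v τ hτ => ⟨?_, fun F => zero_one hm hs O w v F τ, ?_⟩⟩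
  · intro n u hu
    apply knotoid_dia O hO
    have h1 : permW (prodW w u ++ v) = τ * permW v := by
      rw [← hu]
      simp [permW]
    rw [h1]
    exact hτ
  · rintro ⟨k, l, u, u', hu, hu', hne⟩ F
    rcases zero_one hm hs O w v F τ with h | h
    · exact absurd ((h k u hu).trans (h l u' hu').symm) hne
    · exact h

end Pool.Agent.Results.MP_79b4ff_gt.SubgroupZeroOneLaw
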